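import Pool.Agent.Lib.MP_12629d_ag.Defs

/-! # M1 (Bezout on Sym²): definitions. `d = n + 1`, index `0` is the distinguished one -/

open Polynomial

noncomputable section

namespace Nod

namespace Bez

variable {n : ℕ}

/-- `R_k ∧ R_l` -/
def wd (R : Fin (n + 1) → Fin 2 → ℂ) (k l : Fin (n + 1)) : ℂ := R k 0 * R l 1 - R k 1 * R l 0

/-- `(R_k ∧ R_l) / (β_k - β_l)`; symmetric in `k`, `l` -/
def rho (β : Fin (n + 1) → ℂ) (R : Fin (n + 1) → Fin 2 → ℂ) (k l : Fin (n + 1)) : ℂ :=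
  wd R k l / (β k - β l)

/-- `∏_{m ≠ k, l} (x - β_m)` in a commutative `ℂ`-algebra -/
def pp {A : Type} [CommRing A] [Algebra ℂ A] (β : Fin (n + 1) → ℂ) (x : A) (k l : Fin (n + 1)) : A :=
  ∏ m ∈ (Finset.univ.erase k).erase l, (x - algebraMap ℂ A (β m))

/-- `∏_{m ≠ k} (x - β_m)` -/
def ee {A : Type} [CommRing A] [Algebra ℂ A] (β : Fin (n + 1) → ℂ) (x : A) (k : Fin (n + 1)) : A :=
  ∏ m ∈ Finset.univ.erase k, (x - algebraMap ℂ A (β m))

/-- `∏_m (x - β_m)` -/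
def dd {A : Type} [CommRing A] [Algebra ℂ A] (β : Fin (n + 1) → ℂ) (x : A) : A :=
  ∏ m, (x - algebraMap ℂ A (β m))

/-- `∑_k R_{k,a} ∏_{m ≠ k} (x - β_m)` -/
def nu {A : Type} [CommRing A] [Algebra ℂ A] (β : Fin (n + 1) → ℂ) (R : Fin (n + 1) → Fin 2 → ℂ) (x : A)
    (a : Fin 2) : A := ∑ k, algebraMap ℂ A (R k a) * ee β x k

/-- the weighted Laplacian `N(x)`: `N_{kl} = ρ_{kl} ∏_{m ≠ k,l} (x - β_m)` for `k ≠ l`, row sums zero -/
def lap {A : Type} [CommRing A] [Algebra ℂ A] (β : Fin (n + 1) → ℂ) (R : Fin (n + 1) → Fin 2 → ℂ) (x : A)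
    (k l : Fin (n + 1)) : A :=
  if k = l then - ∑ m ∈ Finset.univ.erase k, algebraMap ℂ A (rho β R k m) * pp β x k m
  else algebraMap ℂ A (rho β R k l) * pp β x k l

/-- the Laplacian without row and column `0` -/
def red {A : Type} [CommRing A] [Algebra ℂ A] (β : Fin (n + 1) → ℂ) (R : Fin (n + 1) → Fin 2 → ℂ) (x : A) :
    Matrix (Fin n) (Fin n) A := fun k l => lap β R x k.succ l.succ

/-- the polynomial `h(X) = det` of the reduced Laplacian -/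
def hh (β : Fin (n + 1) → ℂ) (R : Fin (n + 1) → Fin 2 → ℂ) : ℂ[X] := (red β R (X : ℂ[X])).det

/-- the kernel vector `((β_l - β_0) / (y - β_l))_{l ≠ 0}` -/
def zv (β : Fin (n + 1) → ℂ) (y : ℂ) (l : Fin n) : ℂ := (β l.succ - β 0) / (y - β l.succ)

/-- the same vector with denominators cleared: `(β_l - β_0) ∏_{m ≠ 0, l} (y - β_m)` -/
def zp {A : Type} [CommRing A] [Algebra ℂ A] (β : Fin (n + 1) → ℂ) (y : A) (l : Fin n) : A :=
  algebraMap ℂ A (β l.succ - β 0) * pp β y 0 l.succ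

/-- `∑_k R_{k,a} / ((x - β_k)(y - β_k))`: zero for `a = 0, 1` iff `x ≠ y` have the same image, resp. `x = y` is not immersed -/
def GG (β : Fin (n + 1) → ℂ) (R : Fin (n + 1) → Fin 2 → ℂ) (x y : ℂ) (a : Fin 2) : ℂ :=
  ∑ k, R k a / ((x - β k) * (y - β k))

end Bez

end Nod
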