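import Pool.Agent.Lib.MP_12629d_ag.Bez.B0Defs

/-! # Row M1-B1: degree and non-vanishing of `h` -/

open Polynomial

noncomputable section

namespace Nod

namespace Bez

variable {n : ℕ}

theorem B1deg_pp (β : Fin (n + 1) → ℂ) {k l : Fin (n + 1)} (h : k ≠ l) :
    (pp β (X : ℂ[X]) k l).natDegree ≤ n - 1 := by
  unfold pp
  refine (natDegree_prod_le _ _).trans ?_
  have h1 : ∀ m ∈ (Finset.univ.erase k).erase l,
      (X - algebraMap ℂ ℂ[X] (β m)).natDegree ≤ 1 := fun m _ => by
    rw [Polynomial.algebraMap_eq]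
    exact (natDegree_X_sub_C _).le
  refine (Finset.sum_le_card_nsmul _ _ 1 h1).trans ?_
  have h2 : l ∈ Finset.univ.erase k := Finset.mem_erase.mpr ⟨h.symm, Finset.mem_univ _⟩
  rw [Finset.card_erase_of_mem h2, Finset.card_erase_of_mem (Finset.mem_univ _),
    Finset.card_univ, Fintype.card_fin]
  simp

theorem B1deg_lap (β : Fin (n + 1) → ℂ) (R : Fin (n + 1) → Fin 2 → ℂ) (k l : Fin (n + 1)) :
    (lap β R (X : ℂ[X]) k l).natDegree ≤ n - 1 := by
  unfold lap
  split_ifs with h
  · rw [natDegree_neg]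
    refine natDegree_sum_le_of_forall_le _ _ fun m hm => ?_
    rw [Polynomial.algebraMap_eq]
    exact (natDegree_C_mul_le _ _).trans (B1deg_pp β (Finset.ne_of_mem_erase hm).symm)
  · rw [Polynomial.algebraMap_eq]
    exact (natDegree_C_mul_le _ _).trans (B1deg_pp β h)

/-- Every entry of `red β R X` has `natDegree ≤ n - 1`: `pp β X k l` is a product of `n - 1` linear factors if `k ≠ l` (`Fin (n+1)` minus two elements), the diagonal
entries are sums of such terms. The determinant is a sum of products of `n` entries (`Matrix.det_apply`, `natDegree_sum_le_of_forall_le`, `natDegree_prod_le`). -/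
theorem hh_natDegree (β : Fin (n + 1) → ℂ) (R : Fin (n + 1) → Fin 2 → ℂ) :
    (hh β R).natDegree ≤ n * (n - 1) := by
  unfold hh
  rw [Matrix.det_apply']
  refine natDegree_sum_le_of_forall_le _ _ fun σ _ => ?_
  refine natDegree_mul_le.trans ?_
  rw [natDegree_intCast, zero_add]
  refine (natDegree_prod_le _ _).trans ?_
  refine (Finset.sum_le_card_nsmul _ _ (n - 1) fun i _ => B1deg_lap β R _ _).trans ?_
  rw [Finset.card_univ, Fintype.card_fin, smul_eq_mul]

/-- Evaluate at `β 0`: for `k ≠ l` in `Fin n`, `pp β (β 0) k.succ l.succ` has the factor `m = 0`, which is `0`; so the matrix is diagonal with entries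
`- rho k.succ 0 * pp β (β 0) k.succ 0 ≠ 0` (in the sum over `m ≠ k.succ` only `m = 0` survives; the product over `m ≠ 0, k.succ` has nonzero factors `β 0 - β m`).
`Matrix.det_diagonal`; `Polynomial.eval` commutes with `det` (`RingHom.map_det` for `Polynomial.evalRingHom`). -/
theorem hh_eval_ne (β : Fin (n + 1) → ℂ) (hβ : Function.Injective β) (R : Fin (n + 1) → Fin 2 → ℂ)
    (hR : ∀ k l, k ≠ l → wd R k l ≠ 0) : (hh β R).eval (β 0) ≠ 0 := by
  classical
  have hpp : ∀ k l, eval (β 0) (pp β (X : ℂ[X]) k l) =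
      ∏ m ∈ (Finset.univ.erase k).erase l, (β 0 - β m) := by
    intro k l
    unfold pp
    rw [eval_prod]
    refine Finset.prod_congr rfl fun m _ => ?_
    rw [eval_sub, eval_X, Polynomial.algebraMap_apply, eval_C]
    rfl
  have hpp0 : ∀ k l : Fin (n + 1), k ≠ 0 → l ≠ 0 → eval (β 0) (pp β (X : ℂ[X]) k l) = 0 := by
    intro k l hk hl
    rw [hpp]
    exact Finset.prod_eq_zero (i := 0) (by simp [Ne.symm hk, Ne.symm hl]) (sub_self _)
  have hmat : (evalRingHom (β 0)).mapMatrix (red β R (X : ℂ[X])) = Matrix.diagonal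
      (fun k : Fin n => - (rho β R k.succ 0 *
        ∏ m ∈ (Finset.univ.erase k.succ).erase 0, (β 0 - β m))) := by
    ext k l
    rw [RingHom.mapMatrix_apply, Matrix.map_apply, coe_evalRingHom]
    by_cases hkl : k = l
    · subst hkl
      rw [Matrix.diagonal_apply_eq]
      unfold red lap
      rw [if_pos rfl, eval_neg, eval_finsetSum,
        Finset.sum_eq_single_of_mem (0 : Fin (n + 1)) (by simp [Ne.symm (Fin.succ_ne_zero k)])]
      · rw [eval_mul, hpp, Polynomial.algebraMap_apply, eval_C]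
        rfl
      · intro m _ hm
        rw [eval_mul, hpp0 _ _ (Fin.succ_ne_zero k) hm, mul_zero]
    · rw [Matrix.diagonal_apply_ne _ hkl]
      unfold red lap
      rw [if_neg (fun h => hkl (Fin.succ_injective _ h)), eval_mul,
        hpp0 _ _ (Fin.succ_ne_zero k) (Fin.succ_ne_zero l), mul_zero]
  have hdet : (hh β R).eval (β 0) = ∏ k : Fin n, (- (rho β R k.succ 0 *
        ∏ m ∈ (Finset.univ.erase k.succ).erase 0, (β 0 - β m))) := by
    have h1 := RingHom.map_det (evalRingHom (β 0)) (red β R (X : ℂ[X]))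
    rw [hmat, Matrix.det_diagonal, coe_evalRingHom] at h1
    exact h1
  rw [hdet]
  refine Finset.prod_ne_zero_iff.mpr fun k _ => neg_ne_zero.mpr (mul_ne_zero ?_ ?_)
  · unfold rho
    exact div_ne_zero (hR _ _ (Fin.succ_ne_zero k)) (sub_ne_zero.mpr fun h => Fin.succ_ne_zero k (hβ h))
  · refine Finset.prod_ne_zero_iff.mpr fun m hm => ?_
    rw [Finset.mem_erase] at hm
    exact sub_ne_zero.mpr fun h => hm.1 (hβ h).symm

end Bez

end Nod
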