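import Pool.Agent.Lib.MP_12629d_ag.Bez.B0Defs

/-! # Row M1-B2: the kernel identity -/

open Polynomial

noncomputable section

namespace Nod

namespace Bez

variable {n : ℕ}

section helpers

variable {A : Type} [CommRing A] [Algebra ℂ A]

theorem b2_pp_comm (β : Fin (n + 1) → ℂ) (x : A) (k l : Fin (n + 1)) : pp β x k l = pp β x l k := by
  unfold pp
  rw [Finset.erase_right_comm]

theorem b2_ee_eq (β : Fin (n + 1) → ℂ) (x : A) {k l : Fin (n + 1)} (h : k ≠ l) :
    ee β x l = (x - algebraMap ℂ A (β k)) * pp β x k l := by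
  unfold pp ee
  rw [Finset.erase_right_comm]
  exact (Finset.mul_prod_erase _ (fun m => x - algebraMap ℂ A (β m))
    (Finset.mem_erase.mpr ⟨h, Finset.mem_univ k⟩)).symm

theorem b2_dd_eq (β : Fin (n + 1) → ℂ) (x : A) (l : Fin (n + 1)) :
    dd β x = (x - algebraMap ℂ A (β l)) * ee β x l := by
  unfold dd ee
  exact (Finset.mul_prod_erase _ (fun m => x - algebraMap ℂ A (β m)) (Finset.mem_univ l)).symm

/-- the extended vector -/
def b2V (β : Fin (n + 1) → ℂ) (y : A) (l : Fin (n + 1)) : A :=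
  algebraMap ℂ A (β l - β 0) * pp β y 0 l

theorem b2_pp_split (β : Fin (n + 1) → ℂ) (y : A) {a b c : Fin (n + 1)} (hac : c ≠ a) (hbc : c ≠ b) :
    pp β y a b = (y - algebraMap ℂ A (β c)) *
      ∏ m ∈ ((Finset.univ.erase a).erase b).erase c, (y - algebraMap ℂ A (β m)) := by
  unfold pp
  exact (Finset.mul_prod_erase _ (fun m => y - algebraMap ℂ A (β m))
    (Finset.mem_erase.mpr ⟨hbc, Finset.mem_erase.mpr ⟨hac, Finset.mem_univ c⟩⟩)).symm

theorem b2_V_sub (β : Fin (n + 1) → ℂ) (y : A) {k l : Fin (n + 1)} (hk : k ≠ 0) (hkl : l ≠ k) :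
    b2V β y l - b2V β y k = algebraMap ℂ A (β l - β k) * pp β y k l := by
  by_cases hl : l = 0
  · subst hl
    unfold b2V
    rw [b2_pp_comm β y k 0, sub_self, map_zero, zero_mul, zero_sub, ← neg_mul, ← map_neg, neg_sub]
  · unfold b2V
    have e1 : pp β y 0 l = (y - algebraMap ℂ A (β k)) *
        ∏ m ∈ ((Finset.univ.erase 0).erase l).erase k, (y - algebraMap ℂ A (β m)) :=
      b2_pp_split β y hk hkl.symm
    have e2 : pp β y 0 k = (y - algebraMap ℂ A (β l)) *
        ∏ m ∈ ((Finset.univ.erase 0).erase l).erase k, (y - algebraMap ℂ A (β m)) := by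
      rw [b2_pp_split β y hl hkl, Finset.erase_right_comm (a := k) (b := l)]
    have e3 : pp β y k l = (y - algebraMap ℂ A (β 0)) *
        ∏ m ∈ ((Finset.univ.erase 0).erase l).erase k, (y - algebraMap ℂ A (β m)) := by
      rw [b2_pp_split β y hk.symm (Ne.symm hl)]
      congr 2
      ext m
      simp only [Finset.mem_erase]
      tauto
    rw [e1, e2, e3, map_sub, map_sub, map_sub]
    ring

theorem b2_lap_sum (β : Fin (n + 1) → ℂ) (R : Fin (n + 1) → Fin 2 → ℂ) (x : A)
    (V : Fin (n + 1) → A) (k : Fin (n + 1)) :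
    ∑ l, lap β R x k l * V l =
      ∑ l ∈ Finset.univ.erase k, algebraMap ℂ A (rho β R k l) * pp β x k l * (V l - V k) := by
  rw [← Finset.add_sum_erase _ _ (Finset.mem_univ k)]
  have h1 : lap β R x k k = - ∑ m ∈ Finset.univ.erase k, algebraMap ℂ A (rho β R k m) * pp β x k m := by
    unfold lap
    rw [if_pos rfl]
  rw [h1]
  have h2 : ∑ l ∈ Finset.univ.erase k, lap β R x k l * V l =
      ∑ l ∈ Finset.univ.erase k, algebraMap ℂ A (rho β R k l) * pp β x k l * V l := by
    apply Finset.sum_congr rfl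
    intro l hl
    unfold lap
    rw [if_neg (Finset.mem_erase.mp hl).1.symm]
  rw [h2, neg_mul, Finset.sum_mul, neg_add_eq_sub, ← Finset.sum_sub_distrib]
  apply Finset.sum_congr rfl
  intro l _
  ring

end helpers

/-- **The identity.** For every commutative `ℂ`-algebra `A` and `x, y ∈ A`:
`(x - β_k)(y - β_k) ∑_l N_{kl}(x) V_l(y) = - R_k ∧ 𝒜(x, y)` with `𝒜_a(x,y) = ∑_l R_{l,a} e_l(x) e_l(y)`.
Proof. Extend `V` by `V_0 = 0` to all `l : Fin (n+1)` (`V_l = (β_l - β_0) ∏_{m ≠ 0,l} (y - β_m)`, also for `l = 0` because the first factor is `0`); as the row sums of `N` vanish the left sum is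
`∑_{l ≠ k} N_{kl} (V_l - V_k)`. For `k ≠ l`: `V_l - V_k = (β_l - β_k) ∏_{m ≠ k,l} (y - β_m)`: if `k = 0` or `l = 0` clear; otherwise all three products contain the common factor
`∏_{m ≠ 0,k,l} (y - β_m)` and `(β_l - β_0)(y - β_k) - (β_k - β_0)(y - β_l) = (β_l - β_k)(y - β_0)`. With `ρ_{kl} (β_l - β_k) = - R_k ∧ R_l` and
`e_l(x) = (x - β_k) ∏_{m ≠ k,l} (x - β_m)` for `l ≠ k` the claim follows (`R_k ∧ R_k = 0`). -/
theorem kernel_identity {A : Type} [CommRing A] [Algebra ℂ A] (β : Fin (n + 1) → ℂ)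
    (hβ : Function.Injective β) (R : Fin (n + 1) → Fin 2 → ℂ) (x y : A) (k : Fin n) :
    (x - algebraMap ℂ A (β k.succ)) * (y - algebraMap ℂ A (β k.succ)) * ∑ l, red β R x k l * zp β y l
      = - ∑ l, algebraMap ℂ A (wd R k.succ l) * (ee β x l * ee β y l) := by
  have h1 : ∑ l, red β R x k l * zp β y l = ∑ l, lap β R x k.succ l * b2V β y l := by
    rw [Fin.sum_univ_succ]
    have h0 : b2V β y 0 = 0 := by
      unfold b2V
      rw [sub_self, map_zero, zero_mul]
    rw [h0, mul_zero, zero_add]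
    rfl
  rw [h1, b2_lap_sum, Finset.mul_sum, ← Finset.add_sum_erase _ _ (Finset.mem_univ k.succ)]
  have h2 : wd R k.succ k.succ = 0 := by
    unfold wd
    ring
  rw [h2, map_zero, zero_mul, zero_add, ← Finset.sum_neg_distrib]
  apply Finset.sum_congr rfl
  intro l hl
  have hlk : l ≠ k.succ := (Finset.mem_erase.mp hl).1
  rw [b2_V_sub β y (Fin.succ_ne_zero k) hlk, b2_ee_eq β x hlk.symm, b2_ee_eq β y hlk.symm]
  have h3 : rho β R k.succ l * (β l - β k.succ) = - wd R k.succ l := by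
    unfold rho
    have : β k.succ - β l ≠ 0 := sub_ne_zero.mpr fun h => hlk (hβ h).symm
    field_simp
    ring
  have h4 : algebraMap ℂ A (rho β R k.succ l) * algebraMap ℂ A (β l - β k.succ) =
      - algebraMap ℂ A (wd R k.succ l) := by
    rw [← map_mul, h3, map_neg]
  linear_combination ((x - algebraMap ℂ A (β k.succ)) * (y - algebraMap ℂ A (β k.succ)) *
    pp β x k.succ l * pp β y k.succ l) * h4

/-- `(y - x) 𝒜_a(x, y) = nu_a(x) dd(y) - nu_a(y) dd(x)`, because `dd(y) = (y - β_l) e_l(y)` and `(y - β_l) - (x - β_l) = y - x`. -/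
theorem cross_identity {A : Type} [CommRing A] [Algebra ℂ A] (β : Fin (n + 1) → ℂ)
    (R : Fin (n + 1) → Fin 2 → ℂ) (x y : A) (a : Fin 2) :
    (y - x) * ∑ l, algebraMap ℂ A (R l a) * (ee β x l * ee β y l) = nu β R x a * dd β y - nu β R y a * dd β x := by
  unfold nu
  rw [Finset.mul_sum, Finset.sum_mul, Finset.sum_mul, ← Finset.sum_sub_distrib]
  apply Finset.sum_congr rfl
  intro l _
  rw [b2_dd_eq β y l, b2_dd_eq β x l]
  ring

/-- `zp = (∏_{m ≠ 0} (y - β_m)) • zv`. -/
theorem zp_eq (β : Fin (n + 1) → ℂ) (y : ℂ) (hy : ∀ k, y ≠ β k) (l : Fin n) :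
    zp β y l = ee β y 0 * zv β y l := by
  have h1 : ee β y 0 = (y - β l.succ) * pp β y l.succ 0 := b2_ee_eq β y (Fin.succ_ne_zero l)
  unfold zp zv
  rw [h1, b2_pp_comm β y 0 l.succ]
  have h2 : y - β l.succ ≠ 0 := sub_ne_zero.mpr (hy _)
  simp only [Algebra.algebraMap_self, RingHom.id_apply]
  field_simp

/-- For complex `x, y` different from all `β_k` with `GG β R x y = 0`: `∑_l R_{l,a} e_l(x) e_l(y) = dd(x) dd(y) GG x y a = 0`, so by `kernel_identity` (`A = ℂ`) and
`zp β y l = (∏_{m ≠ 0} (y - β_m)) * zv β y l` the vector `zv β y` is in the kernel. -/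
theorem red_kernel (β : Fin (n + 1) → ℂ) (hβ : Function.Injective β) (R : Fin (n + 1) → Fin 2 → ℂ) (x y : ℂ)
    (hx : ∀ k, x ≠ β k) (hy : ∀ k, y ≠ β k) (hG : ∀ a, GG β R x y a = 0) (k : Fin n) :
    ∑ l, red β R x k l * zv β y l = 0 := by
  have h1 := kernel_identity β hβ R x y k
  simp only [Algebra.algebraMap_self, RingHom.id_apply] at h1
  have hee : ∀ l, ee β x l * ee β y l = dd β x * dd β y / ((x - β l) * (y - β l)) := by
    intro l
    have e1 := b2_dd_eq β x l
    have e2 := b2_dd_eq β y l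
    simp only [Algebra.algebraMap_self, RingHom.id_apply] at e1 e2
    have n1 : x - β l ≠ 0 := sub_ne_zero.mpr (hx l)
    have n2 : y - β l ≠ 0 := sub_ne_zero.mpr (hy l)
    rw [e1, e2]
    field_simp
  have h2 : ∑ l, wd R k.succ l * (ee β x l * ee β y l) =
      dd β x * dd β y * (R k.succ 0 * GG β R x y 1 - R k.succ 1 * GG β R x y 0) := by
    unfold GG
    rw [Finset.mul_sum, Finset.mul_sum, ← Finset.sum_sub_distrib, Finset.mul_sum]
    apply Finset.sum_congr rfl
    intro l _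
    rw [hee l]
    unfold wd
    ring
  rw [h2, hG 0, hG 1, mul_zero, mul_zero, sub_zero, mul_zero, neg_zero] at h1
  have n1 : x - β k.succ ≠ 0 := sub_ne_zero.mpr (hx _)
  have n2 : y - β k.succ ≠ 0 := sub_ne_zero.mpr (hy _)
  have h3 := (mul_eq_zero.mp h1).resolve_left (mul_ne_zero n1 n2)
  have h4 : ee β y 0 ≠ 0 := by
    unfold ee
    apply Finset.prod_ne_zero_iff.mpr
    intro m _
    exact sub_ne_zero.mpr (hy m)
  apply (mul_eq_zero.mp (_ : ee β y 0 * ∑ l, red β R x k l * zv β y l = 0)).resolve_left h4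
  rw [← h3, Finset.mul_sum]
  apply Finset.sum_congr rfl
  intro l _
  rw [zp_eq β y hy l]
  ring

end Bez

end Nod
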