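import Pool.Agent.Lib.MP_12629d_ag.Bez.B2Kernel

/-! # Row M1-B3: second order kernel vectors at non-transversal coincidences -/

open Polynomial

noncomputable section

namespace Nod

namespace Bez

variable {n : ℕ}

theorem b3_dd (β : Fin (n + 1) → ℂ) (q : ℂ[X]) (l : Fin (n + 1)) :
    dd β q = (q - C (β l)) * ee β q l := by
  unfold dd ee
  exact (Finset.mul_prod_erase _ (fun m => q - algebraMap ℂ ℂ[X] (β m)) (Finset.mem_univ l)).symm

theorem b3_sq_dvd (P : ℂ[X]) (x : ℂ) (h0 : P.eval x = 0) (h1 : (derivative P).eval x = 0) :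
    (X - C x) ^ 2 ∣ P := by
  by_cases hP : P = 0
  · rw [hP]; exact dvd_zero _
  · have h2 := (one_lt_rootMultiplicity_iff_isRoot (t := x) hP).mpr ⟨h0, h1⟩
    exact (le_rootMultiplicity_iff hP).mp h2

/-- Let `Y = C y + C λ * (X - C x) : ℂ[X]`. `P_a(X) = nu_a(X) dd(Y) - nu_a(Y) dd(X)` is divisible by `(X - x)²`: its value at `x` is `dd(x) dd(y) (g_a(x) - g_a(y)) = 0` where
`g_a = nu_a / dd = ∑ R_{k,a} / (· - β_k)` and `g_a(x) - g_a(y) = (y - x) GG x y a`; its derivative at `x` is (write `nu_a = g_a dd`)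
`nu_a'(x) dd(y) + λ nu_a(x) dd'(y) - λ nu_a'(y) dd(x) - nu_a(y) dd'(x) = dd(x) dd(y) (g_a'(x) - λ g_a'(y)) = 0` by `hT`
(`g_a' = - ∑ R_{k,a} / (· - β_k)²`; `nu_a' = g_a' dd + g_a dd'` at points different from the `β_k`). Use `Polynomial.dvd_iff_isRoot`, or
`(X - C x)^2 ∣ P ↔ P.eval x = 0 ∧ P.derivative.eval x = 0` (`Polynomial.derivative` and Taylor, or divide twice). -/
theorem cross_dvd (β : Fin (n + 1) → ℂ) (R : Fin (n + 1) → Fin 2 → ℂ) (x y lam : ℂ)
    (hx : ∀ k, x ≠ β k) (hy : ∀ k, y ≠ β k) (hG : ∀ a, GG β R x y a = 0)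
    (hT : ∀ a, (∑ k, R k a / (x - β k) ^ 2) = lam * ∑ k, R k a / (y - β k) ^ 2) (a : Fin 2) :
    (X - C x) ^ 2 ∣ nu β R (X : ℂ[X]) a * dd β (C y + C lam * (X - C x))
      - nu β R (C y + C lam * (X - C x)) a * dd β (X : ℂ[X]) := by
  set Y : ℂ[X] := C y + C lam * (X - C x) with hY
  have hYe : Y.eval x = y := by simp [hY]
  have hYd : (derivative Y).eval x = lam := by simp [hY]
  have hP : nu β R (X : ℂ[X]) a * dd β Y - nu β R Y a * dd β (X : ℂ[X]) =
      ∑ k, C (R k a) * (ee β (X : ℂ[X]) k * dd β Y - ee β Y k * dd β (X : ℂ[X])) := by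
    unfold nu
    rw [Finset.sum_mul, Finset.sum_mul, ← Finset.sum_sub_distrib]
    refine Finset.sum_congr rfl fun k _ => ?_
    rw [show algebraMap ℂ ℂ[X] (R k a) = C (R k a) from rfl]
    ring
  rw [hP]
  set D : ℂ := (dd β (X : ℂ[X])).eval x with hD
  set F : ℂ := (dd β Y).eval x with hF
  set D' : ℂ := (derivative (dd β (X : ℂ[X]))).eval x with hD'
  set G' : ℂ := (derivative (dd β Y)).eval x with hG'
  have e0 : ∀ k, D = (x - β k) * (ee β (X : ℂ[X]) k).eval x := by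
    intro k
    rw [hD, b3_dd β X k]
    simp
  have f0 : ∀ k, F = (y - β k) * (ee β Y k).eval x := by
    intro k
    rw [hF, b3_dd β Y k, eval_mul, eval_sub, hYe, eval_C]
  have e1 : ∀ k, D' = (ee β (X : ℂ[X]) k).eval x + (x - β k) * (derivative (ee β (X : ℂ[X]) k)).eval x := by
    intro k
    rw [hD', b3_dd β X k]
    simp
  have f1 : ∀ k, G' = lam * (ee β Y k).eval x + (y - β k) * (derivative (ee β Y k)).eval x := by
    intro k
    rw [hG', b3_dd β Y k, derivative_mul, derivative_sub, derivative_C, sub_zero, eval_add, eval_mul,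
      eval_mul, eval_sub, hYe, hYd, eval_C]
  have hxk : ∀ k, x - β k ≠ 0 := fun k => sub_ne_zero.mpr (hx k)
  have hyk : ∀ k, y - β k ≠ 0 := fun k => sub_ne_zero.mpr (hy k)
  have e0' : ∀ k, (ee β (X : ℂ[X]) k).eval x = D / (x - β k) := by
    intro k
    rw [e0 k, mul_div_cancel_left₀ _ (hxk k)]
  have f0' : ∀ k, (ee β Y k).eval x = F / (y - β k) := by
    intro k
    rw [f0 k, mul_div_cancel_left₀ _ (hyk k)]
  have e1' : ∀ k, (derivative (ee β (X : ℂ[X]) k)).eval x = (D' - D / (x - β k)) / (x - β k) := by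
    intro k
    rw [← e0' k, e1 k, add_sub_cancel_left, mul_div_cancel_left₀ _ (hxk k)]
  have f1' : ∀ k, (derivative (ee β Y k)).eval x = (G' - lam * (F / (y - β k))) / (y - β k) := by
    intro k
    rw [← f0' k, f1 k, add_sub_cancel_left, mul_div_cancel_left₀ _ (hyk k)]
  have hGa := hG a
  unfold GG at hGa
  apply b3_sq_dvd
  · rw [eval_finsetSum]
    have : ∀ k, (C (R k a) * (ee β (X : ℂ[X]) k * dd β Y - ee β Y k * dd β (X : ℂ[X]))).eval x =
        D * F * (y - x) * (R k a / ((x - β k) * (y - β k))) := by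
      intro k
      rw [eval_mul, eval_sub, eval_mul, eval_mul, eval_C, e0' k, f0' k, ← hD, ← hF]
      have h1 := hxk k
      have h2 := hyk k
      field_simp
      ring
    rw [Finset.sum_congr rfl fun k _ => this k, ← Finset.mul_sum, hGa, mul_zero]
  · rw [derivative_sum, eval_finsetSum]
    have : ∀ k, (derivative (C (R k a) * (ee β (X : ℂ[X]) k * dd β Y - ee β Y k * dd β (X : ℂ[X])))).eval x =
        (D' * F + D * G') * (y - x) * (R k a / ((x - β k) * (y - β k)))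
          - D * F * (R k a / (x - β k) ^ 2) + D * F * lam * (R k a / (y - β k) ^ 2) := by
      intro k
      rw [derivative_C_mul, eval_mul, eval_C, derivative_sub, derivative_mul, derivative_mul]
      simp only [eval_sub, eval_add, eval_mul]
      rw [e0' k, f0' k, e1' k, f1' k, ← hD, ← hF, ← hD', ← hG']
      have h1 := hxk k
      have h2 := hyk k
      field_simp
      ring
    rw [Finset.sum_congr rfl fun k _ => this k, Finset.sum_add_distrib, Finset.sum_sub_distrib,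
      ← Finset.mul_sum, ← Finset.mul_sum, ← Finset.mul_sum, hGa, hT a]
    ring

/-- By `cross_dvd` and `cross_identity`, `(X - x)²` divides `(Y - X) 𝒜_a(X, Y)`; multiply `kernel_identity` (`A = ℂ[X]`) by `Y - X`:
`(X - β_k)(Y - β_k)(Y - X) · (row k)` is divisible by `(X - x)²`. The factor `(X - β_k)(Y - β_k)(Y - X)` has the value `(x - β_k)(y - β_k)(y - x) ≠ 0` at `x`, so it is coprime to `X - x`
(`Polynomial.isCoprime_of_...`: `IsCoprime (X - C x) p ↔ p.eval x ≠ 0`, irreducibility of `X - C x`). -/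
theorem red_kernel2 (β : Fin (n + 1) → ℂ) (hβ : Function.Injective β) (R : Fin (n + 1) → Fin 2 → ℂ) (x y lam : ℂ)
    (hxy : x ≠ y) (hx : ∀ k, x ≠ β k) (hy : ∀ k, y ≠ β k) (hG : ∀ a, GG β R x y a = 0)
    (hT : ∀ a, (∑ k, R k a / (x - β k) ^ 2) = lam * ∑ k, R k a / (y - β k) ^ 2) (k : Fin n) :
    (X - C x) ^ 2 ∣ ∑ l, red β R (X : ℂ[X]) k l * zp β (C y + C lam * (X - C x) : ℂ[X]) l := by
  have hYe : (C y + C lam * (X - C x) : ℂ[X]).eval x = y := by simp
  have hcd := cross_dvd β R x y lam hx hy hG hT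
  set Y : ℂ[X] := C y + C lam * (X - C x) with hY
  have hc0 := hcd 0
  have hc1 := hcd 1
  rw [← cross_identity] at hc0 hc1
  have hk := kernel_identity β hβ R (X : ℂ[X]) Y k
  set S : ℂ[X] := ∑ l, red β R (X : ℂ[X]) k l * zp β Y l with hS
  have hw : ∑ l, algebraMap ℂ ℂ[X] (wd R k.succ l) * (ee β (X : ℂ[X]) l * ee β Y l) =
      C (R k.succ 0) * (∑ l, algebraMap ℂ ℂ[X] (R l 1) * (ee β (X : ℂ[X]) l * ee β Y l)) -
      C (R k.succ 1) * (∑ l, algebraMap ℂ ℂ[X] (R l 0) * (ee β (X : ℂ[X]) l * ee β Y l)) := by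
    rw [Finset.mul_sum, Finset.mul_sum, ← Finset.sum_sub_distrib]
    refine Finset.sum_congr rfl fun l _ => ?_
    unfold wd
    rw [map_sub, map_mul, map_mul]
    rw [show (C (R k.succ 0) : ℂ[X]) = algebraMap ℂ ℂ[X] (R k.succ 0) from rfl,
      show (C (R k.succ 1) : ℂ[X]) = algebraMap ℂ ℂ[X] (R k.succ 1) from rfl]
    ring
  have hd : (X - C x) ^ 2 ∣ ((Y - X) * ((X - algebraMap ℂ ℂ[X] (β k.succ)) *
      (Y - algebraMap ℂ ℂ[X] (β k.succ)))) * S := by
    have h1 : ((Y - X) * ((X - algebraMap ℂ ℂ[X] (β k.succ)) *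
      (Y - algebraMap ℂ ℂ[X] (β k.succ)))) * S =
      C (R k.succ 1) * ((Y - X) * (∑ l, algebraMap ℂ ℂ[X] (R l 0) * (ee β (X : ℂ[X]) l * ee β Y l))) -
      C (R k.succ 0) * ((Y - X) * (∑ l, algebraMap ℂ ℂ[X] (R l 1) * (ee β (X : ℂ[X]) l * ee β Y l))) := by
      rw [mul_assoc, hk, hw]
      ring
    rw [h1]
    exact dvd_sub (Dvd.dvd.mul_left hc0 _) (Dvd.dvd.mul_left hc1 _)
  have hcop : IsCoprime ((X - C x) ^ 2) ((Y - X) * ((X - algebraMap ℂ ℂ[X] (β k.succ)) *
      (Y - algebraMap ℂ ℂ[X] (β k.succ)))) := by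
    apply IsCoprime.pow_left
    rw [(irreducible_X_sub_C x).coprime_iff_not_dvd, dvd_iff_isRoot, IsRoot.def]
    rw [show algebraMap ℂ ℂ[X] (β k.succ) = C (β k.succ) from rfl]
    simp only [eval_mul, eval_sub, hYe, eval_X, eval_C]
    exact mul_ne_zero (sub_ne_zero.mpr hxy.symm) (mul_ne_zero (sub_ne_zero.mpr (hx _)) (sub_ne_zero.mpr (hy _)))
  exact hcop.dvd_of_dvd_mul_left hd

end Bez

end Nod
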