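import Pool.Agent.Lib.MP_12629d_ag.Bez.B0Defs

/-! # Row M1-B4: linear independence of the kernel vectors -/

open Polynomial

noncomputable section

namespace Nod

namespace Bez

variable {n : ℕ}

/-- At most `n - 1` values `y` satisfy `GG x y = 0`. `∑_k wd R 0 k / ((x - β_k)(y - β_k)) = R_0 ∧ GG = 0`; multiplied by `∏_{m ≠ 0} (y - β_m)` this is a polynomial in `y` of degree
`≤ n - 1` (the term `k = 0` vanishes as `wd R 0 0 = 0`; for `k ≠ 0` the product over `m ≠ 0, k` remains), which is not zero: its value at `y = β_1` is `wd R 0 1 / (x - β_1) ∏_{m ≠ 0,1} (β_1 - β_m) ≠ 0`.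
So the number of its zeros is at most `n - 1` (`1 ≤ n`). -/
theorem card_partner_le (hn : 1 ≤ n) (β : Fin (n + 1) → ℂ) (hβ : Function.Injective β) (R : Fin (n + 1) → Fin 2 → ℂ)
    (hR : ∀ k l, k ≠ l → wd R k l ≠ 0) (x : ℂ) (hx : ∀ k, x ≠ β k) (T : Finset ℂ)
    (hT : ∀ y ∈ T, (∀ k, y ≠ β k) ∧ ∀ a, GG β R x y a = 0) : T.card ≤ n - 1 := by
  classical
  -- the polynomial
  set p : ℂ[X] := ∑ k ∈ Finset.univ.erase (0 : Fin (n + 1)),
    C (wd R 0 k / (x - β k)) * ∏ m ∈ (Finset.univ.erase (0 : Fin (n + 1))).erase k, (X - C (β m)) with hp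
  have hcardE : ∀ k ∈ Finset.univ.erase (0 : Fin (n + 1)),
      ((Finset.univ.erase (0 : Fin (n + 1))).erase k).card = n - 1 := by
    intro k hk
    rw [Finset.card_erase_of_mem hk, Finset.card_erase_of_mem (Finset.mem_univ _), Finset.card_univ,
      Fintype.card_fin]
    omega
  have hdeg : p.natDegree ≤ n - 1 := by
    rw [hp]
    refine Polynomial.natDegree_sum_le_of_forall_le _ _ fun k hk => ?_
    refine (Polynomial.natDegree_C_mul_le _ _).trans ?_
    refine (Polynomial.natDegree_prod_le _ _).trans ?_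
    calc ∑ m ∈ (Finset.univ.erase (0 : Fin (n + 1))).erase k, (X - C (β m)).natDegree
        ≤ ∑ m ∈ (Finset.univ.erase (0 : Fin (n + 1))).erase k, 1 :=
          Finset.sum_le_sum (f := fun m => (X - C (β m)).natDegree) (g := fun _ => 1)
            fun m _ => (Polynomial.natDegree_X_sub_C (β m)).le
      _ = n - 1 := by rw [Finset.sum_const, smul_eq_mul, mul_one, hcardE k hk]
  have hne : p ≠ 0 := by
    intro h0
    have hk1 : (Fin.succ ⟨0, hn⟩ : Fin (n + 1)) ≠ 0 := Fin.succ_ne_zero _
    set k1 : Fin (n + 1) := Fin.succ ⟨0, hn⟩ with hk1def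
    have hk1m : k1 ∈ Finset.univ.erase (0 : Fin (n + 1)) := Finset.mem_erase.2 ⟨hk1, Finset.mem_univ _⟩
    have h1 : p.eval (β k1) = 0 := by rw [h0]; simp
    rw [hp, Polynomial.eval_finsetSum, Finset.sum_eq_single k1] at h1
    · rw [Polynomial.eval_mul, Polynomial.eval_C, Polynomial.eval_prod] at h1
      rcases mul_eq_zero.1 h1 with h2 | h2
      · rcases div_eq_zero_iff.1 h2 with h3 | h3
        · exact hR 0 k1 hk1.symm h3
        · exact hx k1 (sub_eq_zero.1 h3)
      · rw [Finset.prod_eq_zero_iff] at h2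
        obtain ⟨m, hm, h3⟩ := h2
        rw [Polynomial.eval_sub, Polynomial.eval_X, Polynomial.eval_C, sub_eq_zero] at h3
        exact (Finset.mem_erase.1 hm).1 (hβ h3.symm)
    · intro k hk hkk
      rw [Polynomial.eval_mul, Polynomial.eval_prod]
      rw [Finset.prod_eq_zero (i := k1)]
      · rw [mul_zero]
      · exact Finset.mem_erase.2 ⟨hkk.symm, hk1m⟩
      · simp
    · intro h; exact absurd hk1m h
  by_contra hcon
  push Not at hcon
  refine hne (Polynomial.eq_zero_of_natDegree_lt_card_of_eval_eq_zero' p T ?_ (hdeg.trans_lt hcon))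
  intro y hy
  obtain ⟨hyβ, hG⟩ := hT y hy
  have hyne : ∀ k, y - β k ≠ 0 := fun k => sub_ne_zero.2 (hyβ k)
  have hxne : ∀ k, x - β k ≠ 0 := fun k => sub_ne_zero.2 (hx k)
  have h1 : ∑ k, wd R 0 k / ((x - β k) * (y - β k)) = 0 := by
    have e1 : ∑ k, wd R 0 k / ((x - β k) * (y - β k)) = R 0 0 * GG β R x y 1 - R 0 1 * GG β R x y 0 := by
      unfold GG wd
      rw [Finset.mul_sum, Finset.mul_sum, ← Finset.sum_sub_distrib]
      refine Finset.sum_congr rfl fun k _ => ?_
      ring
    rw [e1, hG 0, hG 1]; ring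
  have hwd0 : wd R 0 0 = 0 := by unfold wd; ring
  rw [← Finset.add_sum_erase _ _ (Finset.mem_univ (0 : Fin (n + 1))), hwd0, zero_div, zero_add] at h1
  rw [hp, Polynomial.eval_finsetSum]
  have h2 : ∀ k ∈ Finset.univ.erase (0 : Fin (n + 1)),
      (C (wd R 0 k / (x - β k)) * ∏ m ∈ (Finset.univ.erase (0 : Fin (n + 1))).erase k, (X - C (β m))).eval y
        = (∏ m ∈ Finset.univ.erase (0 : Fin (n + 1)), (y - β m)) * (wd R 0 k / ((x - β k) * (y - β k))) := by
    intro k hk
    rw [Polynomial.eval_mul, Polynomial.eval_C, Polynomial.eval_prod]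
    simp only [Polynomial.eval_sub, Polynomial.eval_X, Polynomial.eval_C]
    rw [← Finset.mul_prod_erase _ _ hk]
    have := hyne k
    have := hxne k
    field_simp
  rw [Finset.sum_congr rfl h2, ← Finset.mul_sum, h1, mul_zero]

/-- For a set `T` of at most `n` numbers different from the `β_k` the vectors `zv β y`, `y ∈ T`, are linearly independent. Suppose `∑_{y ∈ T} c_y / (y - β_l) = 0` for all `l ≠ 0`
(divide by `β_l - β_0 ≠ 0`). The polynomial `∑_{y ∈ T} c_y ∏_{y' ∈ T, y' ≠ y} (y' - X)` has degree `≤ |T| - 1 < n` and vanishes at the `n` numbers `β_l`, `l ≠ 0`, so it is `0`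
(`Polynomial.eq_zero_of_natDegree_lt_card_of_eval_eq_zero'`); evaluate at `y`: `c_y ∏_{y' ≠ y} (y' - y) = 0`, so `c_y = 0`. -/
theorem zv_indep (β : Fin (n + 1) → ℂ) (hβ : Function.Injective β) (T : Finset ℂ) (hT : ∀ y ∈ T, ∀ k, y ≠ β k)
    (hcard : T.card ≤ n) : LinearIndependent ℂ (fun y : T => zv β (y : ℂ)) := by
  classical
  rw [Fintype.linearIndependent_iff]
  intro g hg y0
  set q : ℂ[X] := ∑ y : T, C (g y) * ∏ y' ∈ (Finset.univ : Finset T).erase y, (C (y' : ℂ) - X) with hq
  have hTc : 0 < T.card := Finset.card_pos.2 ⟨y0, y0.2⟩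
  have hcu : (Finset.univ : Finset T).card = T.card := by simp
  have hdeg : q.natDegree < Fintype.card (Fin n) := by
    rw [Fintype.card_fin]
    have h1 : q.natDegree ≤ T.card - 1 := by
      rw [hq]
      refine Polynomial.natDegree_sum_le_of_forall_le _ _ fun y _ => ?_
      refine (Polynomial.natDegree_C_mul_le _ _).trans ?_
      refine (Polynomial.natDegree_prod_le _ _).trans ?_
      calc ∑ y' ∈ (Finset.univ : Finset T).erase y, (C (y' : ℂ) - X).natDegree
          ≤ ∑ y' ∈ (Finset.univ : Finset T).erase y, 1 := by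
            refine Finset.sum_le_sum fun y' _ => ?_
            refine (Polynomial.natDegree_sub_le _ _).trans ?_
            simp
        _ = T.card - 1 := by
            rw [Finset.sum_const, smul_eq_mul, mul_one, Finset.card_erase_of_mem (Finset.mem_univ _), hcu]
    omega
  have hinj : Function.Injective (fun l : Fin n => β l.succ) := fun a b hab =>
    Fin.succ_injective _ (hβ hab)
  have hzero : q = 0 := by
    refine Polynomial.eq_zero_of_natDegree_lt_card_of_eval_eq_zero q hinj (fun l => ?_) hdeg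
    have hne : ∀ y : T, (y : ℂ) - β l.succ ≠ 0 := fun y => sub_ne_zero.2 (hT y y.2 _)
    have hb : β l.succ - β 0 ≠ 0 := sub_ne_zero.2 fun h => Fin.succ_ne_zero l (hβ h)
    have h1 := congrFun hg l
    simp only [Finset.sum_apply, Pi.smul_apply, smul_eq_mul, Pi.zero_apply, zv] at h1
    have h2 : (β l.succ - β 0) * ∑ y : T, g y / ((y : ℂ) - β l.succ) = 0 := by
      rw [Finset.mul_sum, ← h1]
      refine Finset.sum_congr rfl fun y _ => ?_
      ring
    have h3 : ∑ y : T, g y / ((y : ℂ) - β l.succ) = 0 := (mul_eq_zero.1 h2).resolve_left hb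
    rw [hq, Polynomial.eval_finsetSum]
    have h4 : ∀ y ∈ (Finset.univ : Finset T),
        (C (g y) * ∏ y' ∈ (Finset.univ : Finset T).erase y, (C (y' : ℂ) - X)).eval (β l.succ)
          = (∏ y' : T, ((y' : ℂ) - β l.succ)) * (g y / ((y : ℂ) - β l.succ)) := by
      intro y hy
      rw [Polynomial.eval_mul, Polynomial.eval_C, Polynomial.eval_prod]
      simp only [Polynomial.eval_sub, Polynomial.eval_X, Polynomial.eval_C]
      rw [← Finset.mul_prod_erase _ _ hy]
      have := hne y
      field_simp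
    rw [Finset.sum_congr rfl h4, ← Finset.mul_sum, h3, mul_zero]
  have h5 : q.eval (y0 : ℂ) = 0 := by rw [hzero]; simp
  rw [hq, Polynomial.eval_finsetSum, Finset.sum_eq_single y0] at h5
  · rw [Polynomial.eval_mul, Polynomial.eval_C, Polynomial.eval_prod] at h5
    rcases mul_eq_zero.1 h5 with h6 | h6
    · exact h6
    · exfalso
      rw [Finset.prod_eq_zero_iff] at h6
      obtain ⟨m, hm, h3⟩ := h6
      rw [Polynomial.eval_sub, Polynomial.eval_X, Polynomial.eval_C, sub_eq_zero] at h3
      exact (Finset.mem_erase.1 hm).1 (Subtype.ext h3)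
  · intro y _ hyy
    rw [Polynomial.eval_mul, Polynomial.eval_prod]
    rw [Finset.prod_eq_zero (i := y0)]
    · rw [mul_zero]
    · exact Finset.mem_erase.2 ⟨hyy.symm, Finset.mem_univ _⟩
    · simp
  · intro h; exact absurd (Finset.mem_univ y0) h

end Bez

end Nod
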