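import Mathlib

/-! # Row M1-B5: the order of vanishing of a determinant -/

open Polynomial

noncomputable section

namespace Nod

namespace Bez

theorem b5_sumExtend_inl {K V ι : Type} [Field K] [AddCommGroup V] [Module K V] {v : ι → V} (hs : LinearIndependent K v) (i : ι) :
    Module.Basis.sumExtend hs (Sum.inl i) = v i := by
  classical
  simp only [Module.Basis.sumExtend, Module.Basis.reindex_apply, Module.Basis.extend_apply_self]
  rfl

/-- If polynomial vectors `V_i` have linearly independent values at `x` and `M V_i` is divisible by `(X - x)^{e_i}` then `(X - x)^{∑ e_i}` divides `det M`.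
Proof. Extend the vectors `V_i(x)` to a basis of `ℂ^n` (`Basis.sumExtend` for `hV`, index type `ι ⊕ J`, which is in bijection with `Fin n`: `finrank`), let `P` be the matrix with the columns `V_i` and
the constant vectors of the basis. `det P` evaluated at `x` is nonzero (the columns are a basis), so `det P` is coprime to `X - C x`. `M * P = Q * diagonal D` with `D` `= (X - x)^{e_i}` for the
columns `i : ι` and `1` for the others, so `det M * det P = det Q * (X - x)^{∑ e_i}`. -/
theorem pow_dvd_det {n : ℕ} (M : Matrix (Fin n) (Fin n) ℂ[X]) (x : ℂ) {ι : Type} [Fintype ι] (V : ι → Fin n → ℂ[X])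
    (e : ι → ℕ) (hV : LinearIndependent ℂ (fun i => fun l => (V i l).eval x))
    (hM : ∀ i k, (X - C x) ^ e i ∣ ∑ l, M k l * V i l) : (X - C x) ^ (∑ i, e i) ∣ M.det := by
  classical
  set b := Module.Basis.sumExtend hV with hb
  have hfin : Finite (ι ⊕ Module.Basis.sumExtendIndex hV) := Module.Finite.finite_basis b
  have hfin2 : Finite (Module.Basis.sumExtendIndex hV) :=
    Finite.of_injective (Sum.inr : _ → ι ⊕ Module.Basis.sumExtendIndex hV) Sum.inr_injective
  have : Fintype (Module.Basis.sumExtendIndex hV) := Fintype.ofFinite _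
  have hcard : Fintype.card (ι ⊕ Module.Basis.sumExtendIndex hV) = Fintype.card (Fin n) := by
    rw [← Module.finrank_eq_card_basis b, Module.finrank_fin_fun, Fintype.card_fin]
  set σ : (ι ⊕ Module.Basis.sumExtendIndex hV) ≃ Fin n := Fintype.equivOfCardEq hcard with hσ
  have hbl : ∀ i l, b (Sum.inl i) l = (V i l).eval x := by
    intro i l
    have h1 : b (Sum.inl i) = (fun i => fun l => (V i l).eval x) i := by
      rw [hb]
      exact b5_sumExtend_inl hV i
    rw [h1]
  -- the matrix `P`
  set P : Matrix (Fin n) (Fin n) ℂ[X] := fun l j => Sum.elim (fun i => V i l) (fun c => C (b (Sum.inr c) l)) (σ.symm j) with hP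
  have hPeval : P.map (evalRingHom x) = (Pi.basisFun ℂ (Fin n)).toMatrix (b.reindex σ) := by
    ext l j
    rw [Matrix.map_apply, Module.Basis.toMatrix_apply, Pi.basisFun_repr, Module.Basis.reindex_apply]
    simp only [hP]
    rcases hj : σ.symm j with i | c
    · simp only [Sum.elim_inl, coe_evalRingHom]
      exact (hbl i l).symm
    · simp only [Sum.elim_inr, coe_evalRingHom, eval_C]
  have hdet : (P.det).eval x ≠ 0 := by
    have h1 : (P.det).eval x = (P.map (evalRingHom x)).det := by
      rw [← coe_evalRingHom, RingHom.map_det]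
      rfl
    rw [h1, hPeval, ← Module.Basis.det_apply]
    exact (Module.Basis.isUnit_det (Pi.basisFun ℂ (Fin n)) (b.reindex σ)).ne_zero
  -- the factorisation
  choose q hq using hM
  set D : Fin n → ℂ[X] := fun j => Sum.elim (fun i => (X - C x) ^ e i) (fun _ => 1) (σ.symm j) with hD
  set Q : Matrix (Fin n) (Fin n) ℂ[X] := fun k j => Sum.elim (fun i => q i k) (fun c => (M * P) k (σ (Sum.inr c))) (σ.symm j) with hQ
  have hMP : M * P = Q * Matrix.diagonal D := by
    ext1 k j
    rw [Matrix.mul_diagonal]
    simp only [hQ, hD]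
    rcases hj : σ.symm j with i | c
    · simp only [Sum.elim_inl]
      rw [Matrix.mul_apply, mul_comm (q i k), ← hq i k]
      refine Finset.sum_congr rfl (fun l _ => ?_)
      simp only [hP, hj, Sum.elim_inl]
    · simp only [Sum.elim_inr, mul_one]
      rw [← hj, Equiv.apply_symm_apply]
  have hDprod : ∏ j, D j = (X - C x) ^ (∑ i, e i) := by
    rw [← Equiv.prod_comp σ D, Fintype.prod_sum_type]
    simp only [hD, Equiv.symm_apply_apply, Sum.elim_inl, Sum.elim_inr, Finset.prod_const_one, mul_one]
    rw [Finset.prod_pow_eq_pow_sum]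
  have hmain : M.det * P.det = Q.det * (X - C x) ^ (∑ i, e i) := by
    rw [← Matrix.det_mul, hMP, Matrix.det_mul, Matrix.det_diagonal, hDprod]
  have hcop : IsCoprime ((X - C x) ^ (∑ i, e i)) P.det := by
    refine IsCoprime.pow_left ?_
    rw [(irreducible_X_sub_C x).coprime_iff_not_dvd]
    rw [dvd_iff_isRoot]
    exact hdet
  exact hcop.dvd_of_dvd_mul_right ⟨Q.det, by rw [hmain]; ring⟩

end Bez

end Nod
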