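import Pool.Agent.Lib.MP_12629d_ag.Bez.B1Degree
import Pool.Agent.Lib.MP_12629d_ag.Bez.B3Second
import Pool.Agent.Lib.MP_12629d_ag.Bez.B4Indep
import Pool.Agent.Lib.MP_12629d_ag.Bez.B5Order

/-! # Row M1-B6: counting -/

open Polynomial

noncomputable section

namespace Nod

namespace Bez

variable {n : ℕ}

theorem B6Count_eval_red (β : Fin (n + 1) → ℂ) (R : Fin (n + 1) → Fin 2 → ℂ) (x : ℂ) (k l : Fin n) :
    (red β R (X : ℂ[X]) k l).eval x = red β R x k l := by
  unfold red lap pp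
  split <;> simp [eval_finset_sum, eval_prod, Polynomial.algebraMap_eq]

theorem B6Count_eval_zp (β : Fin (n + 1) → ℂ) (y lam x : ℂ) (l : Fin n) :
    (zp β (C y + C lam * (X - C x) : ℂ[X]) l).eval x = zp β y l := by
  unfold zp pp
  simp [eval_prod, Polynomial.algebraMap_eq]

theorem B6Count_dvd (β : Fin (n + 1) → ℂ) (hβ : Function.Injective β) (R : Fin (n + 1) → Fin 2 → ℂ) (x y : ℂ)
    (hx : ∀ k, x ≠ β k) (hy : ∀ k, y ≠ β k) (hG : ∀ a, GG β R x y a = 0) (k : Fin n) :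
    (X - C x) ∣ ∑ l, red β R (X : ℂ[X]) k l * C (zv β y l) := by
  rw [dvd_iff_isRoot, IsRoot.def, eval_finset_sum]
  rw [← red_kernel β hβ R x y hx hy hG k]
  refine Finset.sum_congr rfl fun l _ => ?_
  rw [eval_mul, eval_C, B6Count_eval_red]

/-- For `x` and a finite set `T` of partners (`GG x y = 0`; `y = x` is allowed) the polynomial `h` vanishes at `x` of order at least `|T|`: `pow_dvd_det` with `ι = T`, `V y l = C (zv β y l)`, `e = 1`
(`red_kernel`; `(red β R X k l).eval x = red β R x k l`, so the polynomial `∑ red k l * C (zv)` has the root `x`), `zv_indep`, `card_partner_le`. -/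
theorem pow_dvd_hh (hn : 1 ≤ n) (β : Fin (n + 1) → ℂ) (hβ : Function.Injective β) (R : Fin (n + 1) → Fin 2 → ℂ)
    (hR : ∀ k l, k ≠ l → wd R k l ≠ 0) (x : ℂ) (hx : ∀ k, x ≠ β k) (T : Finset ℂ)
    (hT : ∀ y ∈ T, (∀ k, y ≠ β k) ∧ ∀ a, GG β R x y a = 0) : (X - C x) ^ T.card ∣ hh β R := by
  have hcard : T.card ≤ n := (card_partner_le hn β hβ R hR x hx T hT).trans (by omega)
  have hind := zv_indep β hβ T (fun y hy => (hT y hy).1) hcard
  have key := pow_dvd_det (red β R (X : ℂ[X])) x (ι := T) (fun y l => C (zv β (y : ℂ) l)) (fun _ => 1)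
    (by simpa using hind) (by
      intro y k
      rw [pow_one]
      exact B6Count_dvd β hβ R x y hx (hT y y.2).1 (hT y y.2).2 k)
  have e : ∑ _i : T, 1 = T.card := by simp
  rw [e] at key
  exact key

/-- The same with one more if some `y0 ∈ T`, `y0 ≠ x`, is not transversal: `V y0 = zp β (C y0 + C lam * (X - C x))` with `e y0 = 2` (`red_kernel2`; its value at `x` is `ee β y0 0 • zv β y0` by `zp_eq`, and
`ee β y0 0 ≠ 0`: the family is still linearly independent, `LinearIndependent.units_smul`). -/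
theorem pow_dvd_hh' (hn : 1 ≤ n) (β : Fin (n + 1) → ℂ) (hβ : Function.Injective β) (R : Fin (n + 1) → Fin 2 → ℂ)
    (hR : ∀ k l, k ≠ l → wd R k l ≠ 0) (x : ℂ) (hx : ∀ k, x ≠ β k) (T : Finset ℂ)
    (hT : ∀ y ∈ T, (∀ k, y ≠ β k) ∧ ∀ a, GG β R x y a = 0) (y0 : ℂ) (hy0 : y0 ∈ T) (hxy : x ≠ y0) (lam : ℂ)
    (hlam : ∀ a, (∑ k, R k a / (x - β k) ^ 2) = lam * ∑ k, R k a / (y0 - β k) ^ 2) :
    (X - C x) ^ (T.card + 1) ∣ hh β R := by
  classical
  have hcard : T.card ≤ n := (card_partner_le hn β hβ R hR x hx T hT).trans (by omega)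
  have hind := zv_indep β hβ T (fun y hy => (hT y hy).1) hcard
  have hy0β := (hT y0 hy0).1
  have hee : ee β y0 0 ≠ 0 := by
    unfold ee
    refine Finset.prod_ne_zero_iff.2 fun m _ => ?_
    exact sub_ne_zero.2 (hy0β m)
  let V : T → Fin n → ℂ[X] := fun y l =>
    if (y : ℂ) = y0 then zp β (C y0 + C lam * (X - C x) : ℂ[X]) l else C (zv β (y : ℂ) l)
  let e : T → ℕ := fun y => if (y : ℂ) = y0 then 2 else 1
  let w : T → ℂˣ := fun y => if (y : ℂ) = y0 then Units.mk0 _ hee else 1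
  have hV : LinearIndependent ℂ (fun y : T => fun l => (V y l).eval x) := by
    have h1 := hind.units_smul w
    have h2 : (fun y : T => fun l => (V y l).eval x) = w • fun y : T => zv β (y : ℂ) := by
      funext y l
      by_cases h : (y : ℂ) = y0
      · have e1 : V y l = zp β (C y0 + C lam * (X - C x) : ℂ[X]) l := if_pos h
        have e2 : w y = Units.mk0 _ hee := if_pos h
        rw [e1, B6Count_eval_zp, zp_eq β y0 hy0β, Pi.smul_apply', Pi.smul_apply, e2, h]
        rfl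
      · have e1 : V y l = C (zv β (y : ℂ) l) := if_neg h
        have e2 : w y = 1 := if_neg h
        rw [e1, eval_C, Pi.smul_apply', e2, one_smul]
    rw [h2]
    exact h1
  have key := pow_dvd_det (red β R (X : ℂ[X])) x V e hV (by
    intro y k
    by_cases h : (y : ℂ) = y0
    · have e1 : V y = zp β (C y0 + C lam * (X - C x) : ℂ[X]) := by
        funext l
        exact if_pos h
      have e2 : e y = 2 := if_pos h
      rw [e1, e2]
      exact red_kernel2 β hβ R x y0 lam hxy hx hy0β (hT y0 hy0).2 hlam k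
    · have e1 : V y = fun l => C (zv β (y : ℂ) l) := by
        funext l
        exact if_neg h
      have e2 : e y = 1 := if_neg h
      rw [e1, e2, pow_one]
      exact B6Count_dvd β hβ R x y hx (hT y y.2).1 (hT y y.2).2 k)
  have hsum : ∑ y : T, e y = T.card + 1 := by
    have h1 : ∑ y : T, e y = ∑ y ∈ T, (if y = y0 then 2 else 1) := by
      rw [← Finset.sum_coe_sort T (fun y => if y = y0 then 2 else 1)]
    have h2 : ∀ y ∈ T, (if y = y0 then 2 else 1) = 1 + (if y = y0 then 1 else 0) := by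
      intro y _
      split <;> rfl
    rw [h1, Finset.sum_congr rfl h2, Finset.sum_add_distrib, Finset.sum_ite_eq' T y0, if_pos hy0]
    simp
  rw [hsum] at key
  exact key

/-- If `(X - x)^{e x} ∣ h` for all `x` in a finite set `s` and `h ≠ 0` then `∑ e x ≤ natDegree h` (pairwise coprime: `Finset.prod_dvd_of_coprime`, `natDegree_le_of_dvd`). -/
theorem sum_le_natDegree (h : ℂ[X]) (h0 : h ≠ 0) (s : Finset ℂ) (e : ℂ → ℕ)
    (hs : ∀ x ∈ s, (X - C x) ^ e x ∣ h) : ∑ x ∈ s, e x ≤ h.natDegree := by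
  have hdvd : ∏ x ∈ s, (X - C x) ^ e x ∣ h := by
    refine Finset.prod_dvd_of_coprime ?_ hs
    intro a _ b _ hab
    exact (pairwise_coprime_X_sub_C Function.injective_id hab).pow
  have h1 := natDegree_le_of_dvd hdvd h0
  rw [natDegree_prod _ _ (fun x _ => pow_ne_zero _ (X_sub_C_ne_zero x))] at h1
  refine le_trans (le_of_eq ?_) h1
  refine Finset.sum_congr rfl fun x _ => ?_
  rw [natDegree_pow, natDegree_X_sub_C, mul_one]

theorem B6Count_ne (β : Fin (n + 1) → ℂ) (hβ : Function.Injective β) (R : Fin (n + 1) → Fin 2 → ℂ)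
    (hR : ∀ k l, k ≠ l → wd R k l ≠ 0) : hh β R ≠ 0 := by
  intro h
  apply hh_eval_ne β hβ R hR
  rw [h, eval_zero]

/-- **Counting.** A finite set `Y` of ordered pairs `(x, y)` (all different from the `β_k`) with `GG x y = 0` has at most `n (n - 1)` elements: sum over the first coordinates, `pow_dvd_hh`, `sum_le_natDegree`,
`hh_natDegree`, `hh_eval_ne` (so `hh ≠ 0`). -/
theorem card_le (hn : 1 ≤ n) (β : Fin (n + 1) → ℂ) (hβ : Function.Injective β) (R : Fin (n + 1) → Fin 2 → ℂ)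
    (hR : ∀ k l, k ≠ l → wd R k l ≠ 0) (Y : Finset (ℂ × ℂ))
    (hY : ∀ q ∈ Y, (∀ k, q.1 ≠ β k) ∧ (∀ k, q.2 ≠ β k) ∧ ∀ a, GG β R q.1 q.2 a = 0) : Y.card ≤ n * (n - 1) := by
  classical
  rw [Finset.card_eq_sum_card_image Prod.fst Y]
  refine (sum_le_natDegree (hh β R) (B6Count_ne β hβ R hR) _ _ ?_).trans (hh_natDegree β R)
  intro x hx
  obtain ⟨q, hq, rfl⟩ := Finset.mem_image.1 hx
  have hc : ((Y.filter (fun a => a.1 = q.1)).image Prod.snd).card = (Y.filter (fun a => a.1 = q.1)).card := by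
    refine Finset.card_image_of_injOn ?_
    intro a ha b hb hab
    rw [Finset.mem_coe, Finset.mem_filter] at ha hb
    exact Prod.ext (ha.2.trans hb.2.symm) hab
  rw [← hc]
  refine pow_dvd_hh hn β hβ R hR q.1 (hY q hq).1 _ ?_
  intro y hy
  obtain ⟨a, ha, rfl⟩ := Finset.mem_image.1 hy
  rw [Finset.mem_filter] at ha
  have := hY a ha.1
  rw [ha.2] at this
  exact this.2

/-- The same with one more if some `(x0, y0) ∈ Y` is not transversal (`pow_dvd_hh'` for `x = x0`). -/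
theorem card_lt (hn : 1 ≤ n) (β : Fin (n + 1) → ℂ) (hβ : Function.Injective β) (R : Fin (n + 1) → Fin 2 → ℂ)
    (hR : ∀ k l, k ≠ l → wd R k l ≠ 0) (Y : Finset (ℂ × ℂ))
    (hY : ∀ q ∈ Y, (∀ k, q.1 ≠ β k) ∧ (∀ k, q.2 ≠ β k) ∧ ∀ a, GG β R q.1 q.2 a = 0) (x0 y0 : ℂ)
    (h0 : (x0, y0) ∈ Y) (hxy : x0 ≠ y0) (lam : ℂ)
    (hlam : ∀ a, (∑ k, R k a / (x0 - β k) ^ 2) = lam * ∑ k, R k a / (y0 - β k) ^ 2) :
    Y.card + 1 ≤ n * (n - 1) := by
  classical
  have hx0 : x0 ∈ Y.image Prod.fst := Finset.mem_image.2 ⟨_, h0, rfl⟩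
  have hsum : ∑ x ∈ Y.image Prod.fst, ((Y.filter (fun a => a.1 = x)).card + if x = x0 then 1 else 0) = Y.card + 1 := by
    rw [Finset.sum_add_distrib, Finset.sum_ite_eq' _ x0, if_pos hx0, ← Finset.card_eq_sum_card_image]
  rw [← hsum]
  refine (sum_le_natDegree (hh β R) (B6Count_ne β hβ R hR) _ _ ?_).trans (hh_natDegree β R)
  intro x hx
  obtain ⟨q, hq, rfl⟩ := Finset.mem_image.1 hx
  have hc : ((Y.filter (fun a => a.1 = q.1)).image Prod.snd).card = (Y.filter (fun a => a.1 = q.1)).card := by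
    refine Finset.card_image_of_injOn ?_
    intro a ha b hb hab
    rw [Finset.mem_coe, Finset.mem_filter] at ha hb
    exact Prod.ext (ha.2.trans hb.2.symm) hab
  have hT : ∀ y ∈ (Y.filter (fun a => a.1 = q.1)).image Prod.snd, (∀ k, y ≠ β k) ∧ ∀ a, GG β R q.1 y a = 0 := by
    intro y hy
    obtain ⟨a, ha, rfl⟩ := Finset.mem_image.1 hy
    rw [Finset.mem_filter] at ha
    have := hY a ha.1
    rw [ha.2] at this
    exact this.2
  rw [← hc]
  by_cases h : q.1 = x0
  · rw [if_pos h]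
    refine pow_dvd_hh' hn β hβ R hR q.1 (hY q hq).1 _ hT y0 ?_ (h ▸ hxy) lam ?_
    · exact Finset.mem_image.2 ⟨(x0, y0), Finset.mem_filter.2 ⟨h0, h.symm⟩, rfl⟩
    · rw [h]; exact hlam
  · rw [if_neg h, add_zero]
    exact pow_dvd_hh hn β hβ R hR q.1 (hY q hq).1 _ hT

end Bez

end Nod
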