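import Pool.Agent.Lib.MP_12629d_ag.Bez.B6Count

/-! # Row M1-B7: the theorem for finite points -/

open Polynomial

noncomputable section

namespace Nod

namespace Bez

variable {n : ℕ}

/-- `val x = val y` iff `GG x y = 0` (for `x ≠ y`): `val β R c x a - val β R c y a = (y - x) * GG β R x y a`. -/
theorem val_sub (β : Fin (n + 1) → ℂ) (R : Fin (n + 1) → Fin 2 → ℂ) (c : Fin 2 → ℂ) (x y : ℂ)
    (hx : ∀ k, x ≠ β k) (hy : ∀ k, y ≠ β k) (a : Fin 2) :
    val β R c x a - val β R c y a = (y - x) * GG β R x y a := by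
  unfold val GG
  rw [add_sub_add_left_eq_sub, ← Finset.sum_sub_distrib, Finset.mul_sum]
  refine Finset.sum_congr rfl fun k _ => ?_
  have h1 := sub_ne_zero.2 (hx k)
  have h2 := sub_ne_zero.2 (hy k)
  field_simp
  ring

/-- The set of the ordered pairs of a finite set `S` of unordered pairs of different elements has `2 |S|` elements. -/
theorem exists_ordered (S : Finset (Sym2 ℂ)) (hS : ∀ x y, s(x, y) ∈ S → x ≠ y) :
    ∃ Y : Finset (ℂ × ℂ), Y.card = 2 * S.card ∧ ∀ x y, (x, y) ∈ Y ↔ s(x, y) ∈ S := by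
  classical
  induction S using Finset.induction_on with
  | empty => exact ⟨∅, by simp, by simp⟩
  | insert p S hp ih =>
    obtain ⟨Y, hY1, hY2⟩ := ih (fun x y h => hS x y (Finset.mem_insert_of_mem h))
    induction p with
    | h u v =>
      have huv : u ≠ v := hS u v (Finset.mem_insert_self _ _)
      refine ⟨insert (u, v) (insert (v, u) Y), ?_, ?_⟩
      · rw [Finset.card_insert_of_notMem, Finset.card_insert_of_notMem, hY1,
          Finset.card_insert_of_notMem hp]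
        · ring
        · rw [hY2, Sym2.eq_swap]
          exact hp
        · rw [Finset.mem_insert, not_or, hY2]
          refine ⟨?_, hp⟩
          rw [Prod.mk.injEq, not_and_or]
          exact Or.inl huv
      · intro x y
        rw [Finset.mem_insert, Finset.mem_insert, Finset.mem_insert, hY2, Sym2.eq_iff,
          Prod.mk.injEq, Prod.mk.injEq, or_assoc]

theorem B7Finite_choose (n : ℕ) : 2 * n.choose 2 = n * (n - 1) := by
  rw [Nat.choose_two_right, Nat.mul_div_cancel']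
  exact (Nat.even_mul_pred_self n).two_dvd

theorem B7Finite_GG (β : Fin (n + 1) → ℂ) (R : Fin (n + 1) → Fin 2 → ℂ) (c : Fin 2 → ℂ) (x y : ℂ)
    (hxy : x ≠ y) (hx : ∀ k, x ≠ β k) (hy : ∀ k, y ≠ β k) (h : ∀ a, val β R c x a = val β R c y a)
    (a : Fin 2) : GG β R x y a = 0 := by
  have h1 := val_sub β R c x y hx hy a
  rw [h a, sub_self] at h1
  rcases mul_eq_zero.1 h1.symm with h2 | h2
  · exact absurd (sub_eq_zero.1 h2).symm hxy
  · exact h2

theorem B7Finite_GGdiag (β : Fin (n + 1) → ℂ) (R : Fin (n + 1) → Fin 2 → ℂ) (x : ℂ) (a : Fin 2) :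
    GG β R x x a = ∑ k, R k a / (x - β k) ^ 2 := by
  unfold GG
  refine Finset.sum_congr rfl fun k _ => ?_
  rw [sq]

/-- `d = n + 1`, `(d - 1).choose 2 = n (n - 1) / 2`. Let `Y` be the set of the ordered pairs of `S`: `|Y| = 2 |S| ≥ n (n - 1)`. `card_le` gives `2 |S| ≤ n (n - 1)`, so equality.
(2) an extra coincidence: `card_le` for `S ∪ {s(x,y)}`. (3) if `∑ R_{k,a} / (x - β_k)² = GG x x a = 0` for both `a`: `card_le` for `Y ∪ {(x, x)}`. (4) if the two vectors
`v = (∑ R_{k,a} / (x - β_k)²)_a`, `w = (∑ R_{k,a} / (y - β_k)²)_a` have `v ∧ w = 0` then, as `w ≠ 0` by (3), `v = lam w`, and `card_lt` gives a contradiction.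
For `n = 0`... is excluded by `1 ≤ n`. -/
theorem finite_thm (hn : 1 ≤ n) (β : Fin (n + 1) → ℂ) (R : Fin (n + 1) → Fin 2 → ℂ) (c : Fin 2 → ℂ)
    (hβ : Function.Injective β) (hR : ∀ k l, k ≠ l → R k 0 * R l 1 - R k 1 * R l 0 ≠ 0)
    (S : Finset (Sym2 ℂ)) (hS : ∀ x y, s(x, y) ∈ S →
      x ≠ y ∧ (∀ k, x ≠ β k) ∧ (∀ k, y ≠ β k) ∧ ∀ a, val β R c x a = val β R c y a)
    (hcard : n.choose 2 ≤ S.card) :
    S.card = n.choose 2 ∧
    (∀ x y, x ≠ y → (∀ k, x ≠ β k) → (∀ k, y ≠ β k) → (∀ a, val β R c x a = val β R c y a) → s(x, y) ∈ S) ∧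
    (∀ x, (∀ k, x ≠ β k) → ∃ a, ∑ k, R k a / (x - β k) ^ 2 ≠ 0) ∧
    (∀ x y, s(x, y) ∈ S → (∑ k, R k 0 / (x - β k) ^ 2) * (∑ k, R k 1 / (y - β k) ^ 2)
      - (∑ k, R k 1 / (x - β k) ^ 2) * (∑ k, R k 0 / (y - β k) ^ 2) ≠ 0) := by
  classical
  have hR' : ∀ k l, k ≠ l → wd R k l ≠ 0 := hR
  obtain ⟨Y, hY1, hY2⟩ := exists_ordered S (fun x y h => (hS x y h).1)
  have hYG : ∀ q ∈ Y, (∀ k, q.1 ≠ β k) ∧ (∀ k, q.2 ≠ β k) ∧ ∀ a, GG β R q.1 q.2 a = 0 := by
    rintro ⟨x, y⟩ hq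
    obtain ⟨h1, h2, h3, h4⟩ := hS x y ((hY2 x y).1 hq)
    exact ⟨h2, h3, B7Finite_GG β R c x y h1 h2 h3 h4⟩
  have hle := card_le hn β hβ R hR' Y hYG
  have hch := B7Finite_choose n
  have hYeq : Y.card = n * (n - 1) := by omega
  have h3 : ∀ x, (∀ k, x ≠ β k) → ∃ a, ∑ k, R k a / (x - β k) ^ 2 ≠ 0 := by
    intro x hx
    by_contra hcon
    push Not at hcon
    have hxx : (x, x) ∉ Y := fun h => (hS x x ((hY2 x x).1 h)).1 rfl
    have := card_le hn β hβ R hR' (insert (x, x) Y) (by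
      intro q hq
      rcases Finset.mem_insert.1 hq with rfl | hq
      · exact ⟨hx, hx, fun a => by rw [B7Finite_GGdiag]; exact hcon a⟩
      · exact hYG q hq)
    rw [Finset.card_insert_of_notMem hxx] at this
    omega
  refine ⟨by omega, ?_, h3, ?_⟩
  · intro x y hxy hx hy hv
    by_contra hcon
    have h1 : (x, y) ∉ Y := fun h => hcon ((hY2 x y).1 h)
    have := card_le hn β hβ R hR' (insert (x, y) Y) (by
      intro q hq
      rcases Finset.mem_insert.1 hq with rfl | hq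
      · exact ⟨hx, hy, B7Finite_GG β R c x y hxy hx hy hv⟩
      · exact hYG q hq)
    rw [Finset.card_insert_of_notMem h1] at this
    omega
  · intro x y hxyS hzero
    obtain ⟨h1, h2, h3', h4⟩ := hS x y hxyS
    have hexl : ∃ lam : ℂ, ∀ a, (∑ k, R k a / (x - β k) ^ 2) = lam * ∑ k, R k a / (y - β k) ^ 2 := by
      obtain ⟨a, ha⟩ := h3 y h3'
      refine ⟨(∑ k, R k a / (x - β k) ^ 2) / ∑ k, R k a / (y - β k) ^ 2, ?_⟩
      set v0 := ∑ k, R k 0 / (x - β k) ^ 2
      set v1 := ∑ k, R k 1 / (x - β k) ^ 2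
      set w0 := ∑ k, R k 0 / (y - β k) ^ 2
      set w1 := ∑ k, R k 1 / (y - β k) ^ 2
      intro b
      rw [div_mul_eq_mul_div, eq_div_iff ha]
      fin_cases a <;> fin_cases b
      · rfl
      · show v1 * w0 = v0 * w1
        linear_combination -hzero
      · show v0 * w1 = v1 * w0
        linear_combination hzero
      · rfl
    obtain ⟨lam, hlam⟩ := hexl
    have := card_lt hn β hβ R hR' Y hYG x y ((hY2 x y).2 hxyS) h1 lam hlam
    omega

end Bez

end Nod
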